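import Mathlib
import Pool.Agent.N242.KB.Stm

/-!
# Project KB (helper242), MP_73700b_an: the statement S_RIG

The tilings of a Hilbert space by translates of the unit ball of a norm `M` with
`‖x‖ ≤ M x ≤ √2 ‖x‖` consist of Voronoi cells. (Proof by helper281, following the plan of helper242.)
-/

set_option autoImplicit false

open Metric Set Filter Topology

namespace Pool.Agent.N281.KB

open Pool.Agent.N242.KB Pool.Agent.N242.NT

universe u

section aux

variable {H : Type u} [NormedAddCommGroup H] [InnerProductSpace ℝ H]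

/-- The point `x` is nearer to `g` than to `h` iff `2 ⟪x - g, h - g⟫ ≤ ‖h - g‖ ^ 2`. -/
theorem near_iff (x g h : H) :
    ‖x - g‖ ≤ ‖x - h‖ ↔ 2 * inner ℝ (h - g) (x - g) ≤ ‖h - g‖ ^ 2 := by
  have h1 : x - h = (x - g) - (h - g) := by abel
  have h2 : ‖x - h‖ ^ 2 = ‖x - g‖ ^ 2 - 2 * inner ℝ (x - g) (h - g) + ‖h - g‖ ^ 2 := by
    rw [h1]
    exact norm_sub_sq_real _ _
  rw [real_inner_comm] at h2
  constructor
  · intro h3
    have h4 : ‖x - g‖ ^ 2 ≤ ‖x - h‖ ^ 2 := by
      have := norm_nonneg (x - g)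
      nlinarith
    linarith
  · intro h3
    have h4 : ‖x - g‖ ^ 2 ≤ ‖x - h‖ ^ 2 := by linarith
    exact le_of_sq_le_sq h4 (norm_nonneg _)
where
  le_of_sq_le_sq {a b : ℝ} (h : a ^ 2 ≤ b ^ 2) (hb : 0 ≤ b) : a ≤ b := by
    by_contra hc
    push Not at hc
    nlinarith

end aux

theorem t_RIG (h1 : S_NEA.{u}) (h2 : S_EXY.{u}) (h3 : S_FLA.{u}) (h4 : S_HIL.{u})
    (h5 : S_SEM.{u}) : S_RIG.{u} := by
  intro H _ _ _ hfin M hM G hG hcov
  have hs2 : (0 : ℝ) < √2 := Real.sqrt_pos.mpr (by norm_num)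
  have hs2' : √2 * √2 = 2 := Real.mul_self_sqrt (by norm_num)
  -- the set `G` is separated
  have hsep : Sep G := by
    intro g hg h hh hne
    have a1 := hG g hg h hh hne
    have a2 := (hM (g - h)).2
    have a3 : √2 * √2 ≤ √2 * ‖g - h‖ := by linarith
    exact le_of_mul_le_mul_left a3 hs2
  obtain ⟨Z, i1, i2, i3, e, he⟩ := h5 H M 1 (√2) one_pos (fun x => by
    rw [one_mul]
    exact hM x)
  have hK : KMP Z := h4 Z H e
  have hZ : ¬ FiniteDimensional ℝ Z := by
    intro hf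
    apply hfin
    exact LinearEquiv.finiteDimensional e.toLinearEquiv
  have hdist : ∀ (z : Z) (g : H), ‖z - e.symm g‖ = M (e z - g) := by
    intro z g
    rw [he, map_sub, ContinuousLinearEquiv.apply_symm_apply]
  set B : Set (Z × ℝ) := {b | ∃ g ∈ G, b = (e.symm g, 1)} with hB
  have hT : Tiling B := by
    refine ⟨?_, ?_, ?_⟩
    · rintro b ⟨g, hg, rfl⟩
      exact one_pos
    · intro x
      obtain ⟨g, hg, hgx⟩ := hcov (e x)
      refine ⟨(e.symm g, 1), ⟨g, hg, rfl⟩, ?_⟩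
      change ‖x - e.symm g‖ ≤ 1
      rw [hdist]
      exact hgx
    · rintro b ⟨g, hg, rfl⟩ b' ⟨h, hh, rfl⟩ hne x hx hx'
      change ‖x - e.symm g‖ < 1 at hx
      change ‖x - e.symm h‖ < 1 at hx'
      rw [hdist] at hx hx'
      have hgh : g ≠ h := by
        rintro rfl
        exact hne rfl
      have a1 := hG g hg h hh hgh
      have a2 : g - h = (e x - h) - (e x - g) := by abel
      have a3 : M (g - h) ≤ M (e x - h) + M (e x - g) := by
        rw [a2]
        exact map_sub_le_add M _ _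
      linarith
  -- (1)
  have hone : ∀ g ∈ G, ∀ z : Z, ‖z - e.symm g‖ ≤ 1 →
      (∀ (F : Finset (Z →L[ℝ] ℝ)) (ε : ℝ), 0 < ε →
        ∃ v, (∀ f ∈ F, f v = 0) ∧ ‖v‖ ≤ ε ∧ ¬ ‖z + v - e.symm g‖ ≤ 1) →
      e z ∈ Vor G g := by
    intro g hg z hz hnf
    have hS : Sing B z := by
      by_contra hns
      obtain ⟨F, ε, hε, hfl⟩ := h3 Z B hT (e.symm g, 1) ⟨g, hg, rfl⟩ z hz hns
      obtain ⟨v, hv1, hv2, hv3⟩ := hnf F ε hε
      exact hv3 (hfl v hv1 hv2)
    have hinf : ∀ ρ > 0, {h | h ∈ G ∧ ‖e z - h‖ < 1 + ρ}.Infinite := by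
      intro ρ hρ
      have a1 := hS ρ hρ
      have a2 : Set.InjOn (fun b : Z × ℝ => e b.1) {b | b ∈ B ∧ ‖z - b.1‖ < b.2 + ρ} := by
        rintro b ⟨⟨g1, _, rfl⟩, _⟩ b' ⟨⟨g2, _, rfl⟩, _⟩ hbb
        have : g1 = g2 := by simpa using hbb
        rw [this]
      refine (a1.image a2).mono ?_
      rintro y ⟨b, ⟨⟨g1, hg1, rfl⟩, hb2⟩, rfl⟩
      change ‖z - e.symm g1‖ < 1 + ρ at hb2
      rw [hdist] at hb2
      change e (e.symm g1) ∈ {h | h ∈ G ∧ ‖e z - h‖ < 1 + ρ}
      rw [ContinuousLinearEquiv.apply_symm_apply]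
      exact ⟨hg1, lt_of_le_of_lt (hM _).1 hb2⟩
    intro h hh
    have a3 := h1 H G hsep (e z) hinf h hh
    have a4 : ‖e z - g‖ ≤ 1 := by
      rw [hdist] at hz
      exact le_trans (hM _).1 hz
    linarith
  -- (2)
  have htwo : ∀ g ∈ G, ∀ y : H, M (y - g) ≤ 1 → y ∈ Vor G g := by
    intro g hg y hy h hh
    let f : Z →L[ℝ] ℝ := (innerSL ℝ (h - g)).comp (e : Z →L[ℝ] H)
    have hf : ∀ z, f z = inner ℝ (h - g) (e z) := fun z => rfl
    have hy' : ‖e.symm y - e.symm g‖ ≤ 1 := by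
      rw [hdist, ContinuousLinearEquiv.apply_symm_apply]
      exact hy
    obtain ⟨z, hz1, hz2, hz3⟩ := h2 Z hK hZ (e.symm g) (e.symm y) 1 one_pos hy' {f}
    have a1 := hz2 f (Finset.mem_singleton_self f)
    rw [hf, hf, ContinuousLinearEquiv.apply_symm_apply] at a1
    have a2 := hone g hg z hz1 hz3 h hh
    rw [near_iff] at a2 ⊢
    rw [inner_sub_right] at a2 ⊢
    rw [a1] at a2
    exact a2
  intro g hg x
  constructor
  · exact htwo g hg x
  · intro hx
    have key : ∀ s : ℝ, 0 < s → s ≤ 1 → (1 - s) * M (x - g) ≤ 1 := by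
      intro s hs hs1
      obtain ⟨h, hh, hhx⟩ := hcov (g + (1 - s) • (x - g))
      have a1 := htwo h hh _ hhx g hg
      have a2 : g + (1 - s) • (x - g) - g = (1 - s) • (x - g) := by abel
      by_cases hgh : h = g
      · subst hgh
        rw [a2, map_smul_eq_mul, Real.norm_eq_abs, abs_of_nonneg (by linarith)] at hhx
        exact hhx
      · exfalso
        have a3 := hx h hh
        rw [near_iff] at a3
        have a4 : ‖h - g‖ ^ 2 ≤ 2 * inner ℝ (h - g) (g + (1 - s) • (x - g) - g) := by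
          have b1 : g + (1 - s) • (x - g) - h
              = (g + (1 - s) • (x - g) - g) - (h - g) := by abel
          have b2 : ‖g + (1 - s) • (x - g) - h‖ ^ 2
              = ‖g + (1 - s) • (x - g) - g‖ ^ 2
                - 2 * inner ℝ (g + (1 - s) • (x - g) - g) (h - g) + ‖h - g‖ ^ 2 := by
            rw [b1]
            exact norm_sub_sq_real _ _
          rw [real_inner_comm] at b2
          have b3 := norm_nonneg (g + (1 - s) • (x - g) - h)
          have b4 : ‖g + (1 - s) • (x - g) - h‖ ^ 2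
              ≤ ‖g + (1 - s) • (x - g) - g‖ ^ 2 := by nlinarith
          linarith
        rw [a2, inner_smul_right] at a4
        have a5 : 0 < ‖h - g‖ := norm_pos_iff.mpr (sub_ne_zero.mpr hgh)
        have a6 : 0 < ‖h - g‖ ^ 2 := by positivity
        have a7 : (1 - s) * (2 * inner ℝ (h - g) (x - g)) ≤ (1 - s) * ‖h - g‖ ^ 2 :=
          mul_le_mul_of_nonneg_left a3 (by linarith)
        nlinarith
    have hlim : Tendsto (fun s : ℝ => (1 - s) * M (x - g)) (𝓝[>] 0)
        (𝓝 ((1 - 0) * M (x - g))) := by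
      apply Tendsto.mono_left _ nhdsWithin_le_nhds
      exact ((continuous_const.sub continuous_id).mul continuous_const).tendsto 0
    have hle : (1 - 0) * M (x - g) ≤ 1 := by
      refine le_of_tendsto hlim ?_
      have : Set.Ioc (0 : ℝ) 1 ∈ 𝓝[>] (0 : ℝ) := Ioc_mem_nhdsGT one_pos
      filter_upwards [this] with s hs
      exact key s hs.1 hs.2
    linarith

end Pool.Agent.N281.KB
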